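import Pool.Agent.Run7.h376.CGS.D

/-!
# Project GEN, piece CG: one block
-/

set_option autoImplicit false

namespace Run7.h376.G

open Finset Filter Topology
open Run7.h285.S (gg)
open Run7.h376.CGS
open Pool.Agent.TH892.SW (ff ffn wt wt_nonneg wt_le wt_anti pp_sum lamz_le)
open Pool.Agent.H373R2.T7 (lamz Vz lamI lamzI lamz_nonneg)

/-- the splitting of the correlation in an interval, any shift -/
theorem split4 {z N : ℕ} {a b D : ℤ} (hb : b ≤ N) (ha : -a ≤ N) :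
    ∑ k ∈ Icc a b, gg z k * gg z (k + D) =
      ∑ t ∈ Icc 1 N, (if (t : ℤ) ∈ Icc a b then ff z t else 0) * ff z ((t : ℤ) + 1 * D) +
      ∑ t ∈ Icc 1 N, (if (t : ℤ) ∈ Icc a b then ff z t else 0) * ff z (-D - (t : ℤ)) +
      ∑ t ∈ Icc 1 N, (if -(t : ℤ) ∈ Icc a b then ff z t else 0) * ff z ((t : ℤ) + -1 * D) +
      ∑ t ∈ Icc 1 N, (if -(t : ℤ) ∈ Icc a b then ff z t else 0) * ff z (D - (t : ℤ)) := by
  have h1 : ∑ k ∈ Icc a b, gg z k * gg z (k + D) = ∑ k ∈ Icc a b, ff z k * gg z (k + D) +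
      ∑ k ∈ Icc a b, ff z (-k) * gg z (k + D) := by
    rw [← sum_add_distrib]
    apply sum_congr rfl
    intro k _
    have : gg z k = ff z k + ff z (-k) := by unfold gg; rw [one_mul, neg_one_mul]
    rw [this]; ring
  have h2 : ∑ k ∈ Icc a b, ff z (-k) * gg z (k + D) = ∑ k ∈ Icc (-b) (-a), ff z k * gg z (-k + D) := by
    apply sum_nbij' (fun k => -k) (fun k => -k)
    · intro k hk; rw [mem_Icc] at hk ⊢; constructor <;> omega
    · intro k hk; rw [mem_Icc] at hk ⊢; constructor <;> omega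
    · intro k _; ring
    · intro k _; ring
    · intro k _; rw [neg_neg]
  rw [h1, h2, sum_nat hb (fun k => ff z k * gg z (k + D)) (fun k hk => by rw [ff_neg (by omega), zero_mul]),
    sum_nat ha (fun k => ff z k * gg z (-k + D)) (fun k hk => by rw [ff_neg (by omega), zero_mul]), add_assoc
      (∑ t ∈ Icc 1 N, (if (t : ℤ) ∈ Icc a b then ff z t else 0) * ff z ((t : ℤ) + 1 * D) +
      ∑ t ∈ Icc 1 N, (if (t : ℤ) ∈ Icc a b then ff z t else 0) * ff z (-D - (t : ℤ)))]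
  congr 1
  · rw [← sum_add_distrib]
    apply sum_congr rfl
    intro t _
    split_ifs with h
    · have : gg z ((t : ℤ) + D) = ff z ((t : ℤ) + 1 * D) + ff z (-D - (t : ℤ)) := by
        unfold gg
        congr 2 <;> ring
      rw [this]; ring
    · ring
  · rw [← sum_add_distrib]
    apply sum_congr rfl
    intro t _
    have hiff : (t : ℤ) ∈ Icc (-b) (-a) ↔ -(t : ℤ) ∈ Icc a b := by
      rw [mem_Icc, mem_Icc]; omega
    by_cases h : -(t : ℤ) ∈ Icc a b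
    · rw [if_pos (hiff.2 h), if_pos h]
      have : gg z (-(t : ℤ) + D) = ff z ((t : ℤ) + -1 * D) + ff z (D - (t : ℤ)) := by
        unfold gg
        rw [add_comm]
        congr 2 <;> ring
      rw [this]; ring
    · rw [if_neg (fun h' => h (hiff.1 h')), if_neg h]; ring

/-- the crossed terms -/
theorem cross {z : ℕ} (N : ℕ) {L : ℝ} (hL : 0 ≤ L) (hff : ∀ y : ℤ, |ff z y| ≤ 3 * L) (P : ℕ → Prop)
    [DecidablePred P] (D : ℤ) :
    |∑ t ∈ Icc 1 N, (if P t then ff z t else 0) * ff z (D - (t : ℤ))| ≤ 9 * L ^ 2 * |(D : ℝ)| := by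
  calc _ ≤ ∑ t ∈ Icc 1 N, |(if P t then ff z t else 0) * ff z (D - (t : ℤ))| :=
        abs_sum_le_sum_abs _ _
    _ ≤ ∑ t ∈ Icc 1 N, (if (t : ℤ) ≤ D then 9 * L ^ 2 else 0) := by
        apply sum_le_sum
        intro t _
        split_ifs with h6 h7 h7
        · rw [abs_mul]
          have := mul_le_mul (hff t) (hff (D - t)) (abs_nonneg _) (by linarith : (0 : ℝ) ≤ 3 * L)
          linarith [(by ring : 3 * L * (3 * L) = 9 * L ^ 2)]
        · rw [ff_neg (y := D - t) (by omega), mul_zero, abs_zero]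
        · rw [zero_mul, abs_zero]; positivity
        · rw [zero_mul, abs_zero]
    _ ≤ ∑ t ∈ Icc 1 D.toNat, 9 * L ^ 2 := by
        rw [← sum_filter]
        apply sum_le_sum_of_subset_of_nonneg
        · intro t ht
          rw [mem_filter, mem_Icc] at ht
          rw [mem_Icc]
          omega
        · intro t _ _
          positivity
    _ = D.toNat * (9 * L ^ 2) := by
        rw [sum_const, Nat.card_Icc, nsmul_eq_mul, Nat.add_sub_cancel]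
    _ ≤ |(D : ℝ)| * (9 * L ^ 2) := by
        apply mul_le_mul_of_nonneg_right _ (by positivity)
        have h1 : ((D.toNat : ℕ) : ℤ) ≤ |D| := by
          rw [Int.toNat_eq_max]
          exact max_le (le_abs_self D) (abs_nonneg D)
        have h2 : (((D.toNat : ℕ) : ℤ) : ℝ) ≤ ((|D| : ℤ) : ℝ) := by exact_mod_cast h1
        rw [Int.cast_natCast, Int.cast_abs] at h2
        exact h2
    _ = _ := by ring

/-- moving the interval, both directions -/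
theorem icc_shift' {f : ℤ → ℝ} {Kf : ℝ} (hf : ∀ k, |f k| ≤ Kf) (a b δ : ℤ) :
    |∑ k ∈ Icc (a + δ) (b + δ), f k - ∑ k ∈ Icc a b, f k| ≤ 2 * |(δ : ℝ)| * Kf := by
  rcases le_total 0 δ with h | h
  · obtain ⟨n, hn⟩ := Int.eq_ofNat_of_zero_le h
    have := icc_shift hf a b n
    rw [hn, Int.cast_natCast, Nat.abs_cast]
    exact this
  · obtain ⟨n, hn⟩ := Int.eq_ofNat_of_zero_le (neg_nonneg.2 h)
    have h1 := icc_shift hf (a + δ) (b + δ) n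
    have e1 : a + δ + (n : ℤ) = a := by rw [← hn]; ring
    have e2 : b + δ + (n : ℤ) = b := by rw [← hn]; ring
    rw [e1, e2, abs_sub_comm] at h1
    have e3 : |(δ : ℝ)| = n := by
      have e4 : (δ : ℝ) = -(n : ℝ) := by
        have e5 : δ = -(n : ℤ) := by rw [← hn]; ring
        rw [e5]
        push_cast
        rfl
      rw [e4, abs_neg, Nat.abs_cast]
    rw [e3]
    exact h1

theorem cor_gen {z N X : ℕ} {c₀ c₁ c₂ : ℤ} (hz : 1 ≤ z) {L Dm Δ T : ℝ} (hL : 1 ≤ L)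
    (hff : ∀ y : ℤ, |ff z y| ≤ 3 * L) (hV : (Vz z)⁻¹ ≤ L) (hN : 2 ≤ N)
    (hNX : |c₀| + X ≤ N) (hD : |((c₂ - c₁ : ℤ) : ℝ)| ≤ Dm) (hΔ : |((c₁ - c₀ : ℤ) : ℝ)| ≤ Δ)
    (hDN : Dm ≤ N) (hT : Dm + 4 ≤ T) :
    |∑ c ∈ Icc (-(X : ℤ)) X, gg z (c₁ + c) * gg z (c₂ + c)| ≤ 72 * L ^ 2 * Δ + 18 * L ^ 2 * Dm + 6 * L * RR N Dm T L +
      |∑ t ∈ Icc 1 N, ((if (t : ℤ) ∈ Icc (c₀ - X) (c₀ + X) then ff z t else 0) * wt t) *
        (lamI ((t : ℤ) + 1 * (c₂ - c₁)) - lamzI z ((t : ℤ) + 1 * (c₂ - c₁)))| +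
      |∑ t ∈ Icc 1 N, ((if -(t : ℤ) ∈ Icc (c₀ - X) (c₀ + X) then ff z t else 0) * wt t) *
        (lamI ((t : ℤ) + -1 * (c₂ - c₁)) - lamzI z ((t : ℤ) + -1 * (c₂ - c₁)))| := by
  obtain ⟨D, hDdef⟩ : ∃ D : ℤ, D = c₂ - c₁ := ⟨_, rfl⟩
  obtain ⟨a, ha⟩ : ∃ a : ℤ, a = c₀ - X := ⟨_, rfl⟩
  obtain ⟨b, hb⟩ : ∃ b : ℤ, b = c₀ + X := ⟨_, rfl⟩
  rw [← ha, ← hb, ← hDdef]
  rw [← hDdef] at hD
  have hDm0 : 0 ≤ Dm := (abs_nonneg _).trans hD
  have hL0 : (0 : ℝ) ≤ L := by linarith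
  have hgg : ∀ k : ℤ, |gg z k| ≤ 6 * L := by
    intro k
    unfold gg
    refine (abs_add_le _ _).trans ?_
    have := hff (1 * k)
    have := hff (-1 * k)
    linarith
  obtain ⟨δ, hδ⟩ : ∃ δ : ℤ, δ = c₁ - c₀ := ⟨_, rfl⟩
  rw [← hδ] at hΔ
  have e1 : ∑ c ∈ Icc (-(X : ℤ)) X, gg z (c₁ + c) * gg z (c₂ + c) =
      ∑ k ∈ Icc (a + δ) (b + δ), gg z k * gg z (k + D) := by
    apply sum_nbij' (fun c => c₁ + c) (fun k => k - c₁)
    · intro k hk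
      rw [mem_Icc] at hk ⊢
      constructor <;> omega
    · intro k hk
      rw [mem_Icc] at hk ⊢
      constructor <;> omega
    · intro k _; ring
    · intro k _; ring
    · intro k _
      congr 2
      rw [hDdef]
      ring
  have h1 := icc_shift' (f := fun k => gg z k * gg z (k + D)) (Kf := 36 * L ^ 2) (by
    intro k
    rw [abs_mul]
    have := mul_le_mul (hgg k) (hgg (k + D)) (abs_nonneg _) (by linarith : (0 : ℝ) ≤ 6 * L)
    linarith [this, (by ring : 6 * L * (6 * L) = 36 * L ^ 2)]) a b δ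
  rw [← e1] at h1
  have hc0 := le_abs_self c₀
  have hc0' := neg_abs_le c₀
  have hbN : b ≤ N := by
    rw [hb]
    linarith
  have haN : -a ≤ N := by
    rw [ha]
    linarith
  have h2 := split4 (z := z) (D := D) hbN haN
  have hDabs : |((1 * D : ℤ) : ℝ)| ≤ Dm := by
    rw [one_mul]; exact hD
  have hDabs' : |((-1 * D : ℤ) : ℝ)| ≤ Dm := by
    rw [neg_one_mul, Int.cast_neg, abs_neg]; exact hD
  have h3 := rep1 hz hL0 hN hDabs hDN hT hV (fun t => if (t : ℤ) ∈ Icc a b then ff z t else 0) (by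
    intro t
    split_ifs
    · exact hff _
    · rw [abs_zero]; linarith)
  have h4 := rep1 hz hL0 hN hDabs' hDN hT hV (fun t => if -(t : ℤ) ∈ Icc a b then ff z t else 0) (by
    intro t
    split_ifs
    · exact hff _
    · rw [abs_zero]; linarith)
  have h5 := cross N hL0 hff (fun t => -(t : ℤ) ∈ Icc a b) D
  have h5' := cross N hL0 hff (fun t => (t : ℤ) ∈ Icc a b) (-D)
  rw [Int.cast_neg, abs_neg] at h5'
  have h9 : 9 * L ^ 2 * |(D : ℝ)| ≤ 9 * L ^ 2 * Dm := mul_le_mul_of_nonneg_left hD (by positivity)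
  have h6 : |∑ k ∈ Icc a b, gg z k * gg z (k + D)| ≤
      |∑ t ∈ Icc 1 N, (if (t : ℤ) ∈ Icc a b then ff z t else 0) * ff z ((t : ℤ) + 1 * D)| +
      |∑ t ∈ Icc 1 N, (if (t : ℤ) ∈ Icc a b then ff z t else 0) * ff z (-D - (t : ℤ))| +
      |∑ t ∈ Icc 1 N, (if -(t : ℤ) ∈ Icc a b then ff z t else 0) * ff z ((t : ℤ) + -1 * D)| +
      |∑ t ∈ Icc 1 N, (if -(t : ℤ) ∈ Icc a b then ff z t else 0) * ff z (D - (t : ℤ))| := by
    rw [h2]
    refine (abs_add_le _ _).trans (add_le_add ?_ le_rfl)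
    refine (abs_add_le _ _).trans (add_le_add ?_ le_rfl)
    exact abs_add_le _ _
  have h7 : 2 * |(δ : ℝ)| * (36 * L ^ 2) ≤ 72 * L ^ 2 * Δ := by
    have : 0 ≤ L ^ 2 := by positivity
    nlinarith
  have h8 := abs_add_le (∑ c ∈ Icc (-(X : ℤ)) X, gg z (c₁ + c) * gg z (c₂ + c) - ∑ k ∈ Icc a b, gg z k * gg z (k + D))
      (∑ k ∈ Icc a b, gg z k * gg z (k + D))
  rw [sub_add_cancel] at h8
  linarith

/-- one block -/
theorem block_gen {z N X M₁ : ℕ} (c₀ : ℤ) (c₁ c₂ : ℕ → ℤ) (hz : 1 ≤ z) {L Dm Δ T Q : ℝ} (hL : 1 ≤ L)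
    (hff : ∀ y : ℤ, |ff z y| ≤ 3 * L) (hV : (Vz z)⁻¹ ≤ L) (hN : 2 ≤ N) (hM : 1 ≤ M₁)
    (hNX : |c₀| + X ≤ N)
    (hD : ∀ m ∈ Icc 1 M₁, |((c₂ m - c₁ m : ℤ) : ℝ)| ≤ Dm)
    (hΔ : ∀ m ∈ Icc 1 M₁, |((c₁ m - c₀ : ℤ) : ℝ)| ≤ Δ)
    (hDN : Dm ≤ N) (hT : Dm + 4 ≤ T)
    (hlaw : ∀ σ : ℤ, σ = 1 ∨ σ = -1 → ∀ G : ℕ → ℝ, (∀ n ∈ Icc 1 N, |G n| ≤ 9 / 2 * L) →
      ∑ m ∈ Icc 1 M₁, (1 / (M₁ : ℝ)) *
        |∑ n ∈ Icc 1 N, G n * (lamI ((n : ℤ) + σ * (c₂ m - c₁ m)) - lamzI z ((n : ℤ) + σ * (c₂ m - c₁ m)))| ≤ Q) :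
    ∑ m ∈ Icc 1 M₁, |∑ c ∈ Icc (-(X : ℤ)) X, gg z (c₁ m + c) * gg z (c₂ m + c)| ≤
      M₁ * (72 * L ^ 2 * Δ + 18 * L ^ 2 * Dm + 6 * L * RR N Dm T L + 2 * Q) := by
  have hM0 : (0 : ℝ) < M₁ := by exact_mod_cast hM
  obtain ⟨a, ha⟩ : ∃ a : ℤ, a = c₀ - X := ⟨_, rfl⟩
  obtain ⟨b, hb⟩ : ∃ b : ℤ, b = c₀ + X := ⟨_, rfl⟩
  have hG : ∀ (P : ℕ → Prop) [DecidablePred P], ∀ n ∈ Icc 1 N, |(if P n then ff z n else 0) * wt n| ≤ 9 / 2 * L := by
    intro P _ n _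
    rw [abs_mul, abs_of_nonneg (wt_nonneg n)]
    have h1 : |(if P n then ff z n else 0)| ≤ 3 * L := by
      split_ifs
      · exact hff _
      · rw [abs_zero]; linarith
    have := mul_le_mul h1 (wt_le' n) (wt_nonneg n) (by linarith)
    linarith
  have l1 := hlaw 1 (Or.inl rfl) (fun t => (if (t : ℤ) ∈ Icc a b then ff z t else 0) * wt t)
    (hG (fun t => (t : ℤ) ∈ Icc a b))
  have l2 := hlaw (-1) (Or.inr rfl) (fun t => (if -(t : ℤ) ∈ Icc a b then ff z t else 0) * wt t)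
    (hG (fun t => -(t : ℤ) ∈ Icc a b))
  rw [← mul_sum, one_div, inv_mul_le_iff₀ hM0] at l1 l2
  have hsum : ∑ m ∈ Icc 1 M₁, |∑ c ∈ Icc (-(X : ℤ)) X, gg z (c₁ m + c) * gg z (c₂ m + c)| ≤ ∑ m ∈ Icc 1 M₁,
      ((72 * L ^ 2 * Δ + 18 * L ^ 2 * Dm + 6 * L * RR N Dm T L) +
      |∑ t ∈ Icc 1 N, ((if (t : ℤ) ∈ Icc a b then ff z t else 0) * wt t) *
        (lamI ((t : ℤ) + 1 * (c₂ m - c₁ m)) - lamzI z ((t : ℤ) + 1 * (c₂ m - c₁ m)))| +
      |∑ t ∈ Icc 1 N, ((if -(t : ℤ) ∈ Icc a b then ff z t else 0) * wt t) *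
        (lamI ((t : ℤ) + -1 * (c₂ m - c₁ m)) - lamzI z ((t : ℤ) + -1 * (c₂ m - c₁ m)))|) := by
    apply sum_le_sum
    intro m hm
    rw [ha, hb]
    exact cor_gen hz hL hff hV hN hNX (hD m hm) (hΔ m hm) hDN hT
  rw [sum_add_distrib, sum_add_distrib, sum_const, Nat.card_Icc, nsmul_eq_mul, Nat.add_sub_cancel] at hsum
  linarith

end Run7.h376.G
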