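import Pool.Agent.Run7.h376.CGS.D

/-!
# Project GEN, piece CG: the final inequality
-/

set_option autoImplicit false

namespace Run7.h376.G

open Finset Filter Topology
open Run7.h376.CGS

theorem final_g {X L : ℝ} {N U C D q : ℕ} (hL : 10 ≤ L) (hX : 1 ≤ X)
    (hq : 2 * C + D + 2 * U + 20 ≤ q) (hXL : L ^ (2 * U + C + 20) ≤ X)
    (hN : (N : ℝ) ≤ 2 * (X * L ^ (C + 3)))
    (hlog2 : Real.log ((2 * N : ℕ) : ℝ) ≤ 2 * L) (hlog : L ≤ Real.log N) :
    72 * L ^ 2 * (X * L ^ (C + 2) / L ^ (C + U + 8)) + 18 * L ^ 2 * (X * L ^ (C + D + 2) / L ^ q) +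
      6 * L * RR N (X * L ^ (C + D + 2) / L ^ q) (2 * X / L ^ (U + 6)) L +
      2 * (9 / 2 * L * (N / Real.log N ^ (U + C + 8))) ≤ 1000 * (X / L ^ (U + 4)) := by
  have hL0 : 0 < L := by linarith
  have hL1 : 1 ≤ L := by linarith
  have hX0 : 0 < X := by linarith
  have hLp : ∀ n, 0 < L ^ n := fun n => by positivity
  obtain ⟨w, hw⟩ : ∃ w, w = X / L ^ (U + 4) := ⟨_, rfl⟩
  have hw0 : 0 ≤ w := by rw [hw]; positivity
  have hkey : ∀ n k : ℕ, n + k ≤ q → X * L ^ n / L ^ q ≤ X / L ^ k := by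
    intro n k hnk
    rw [div_le_div_iff₀ (hLp _) (hLp _), mul_assoc, ← pow_add]
    exact mul_le_mul_of_nonneg_left (pow_le_pow_right₀ hL1 hnk) hX0.le
  rw [← hw]
  obtain ⟨Dm, hDm⟩ : ∃ Dm, Dm = X * L ^ (C + D + 2) / L ^ q := ⟨_, rfl⟩
  have hDm0 : 0 ≤ Dm := by rw [hDm]; positivity
  have t1 : 72 * L ^ 2 * (X * L ^ (C + 2) / L ^ (C + U + 8)) = 72 * w := by
    rw [hw]
    have : L ^ (C + U + 8) = L ^ (C + 2) * L ^ 2 * L ^ (U + 4) := by
      rw [← pow_add, ← pow_add]; congr 1; omega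
    rw [this]
    field_simp
  have t2 : 18 * L ^ 2 * Dm ≤ 18 * w := by
    have h1 : L ^ 2 * Dm = X * L ^ (C + D + 4) / L ^ q := by
      rw [hDm]
      have : L ^ (C + D + 4) = L ^ (C + D + 2) * L ^ 2 := by rw [← pow_add]
      rw [this]
      ring
    have h2 := hkey (C + D + 4) (U + 4) (by omega)
    rw [← h1, ← hw] at h2
    linarith
  have t4 : 2 * (9 / 2 * L * (N / Real.log N ^ (U + C + 8))) ≤ 18 * w := by
    have h1 : (N : ℝ) / Real.log N ^ (U + C + 8) ≤ 2 * (X * L ^ (C + 3)) / L ^ (U + C + 8) := by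
      apply div_le_div₀ (by positivity) hN (hLp _)
      exact pow_le_pow_left₀ hL0.le hlog _
    have h2 : 2 * (9 / 2 * L * (2 * (X * L ^ (C + 3)) / L ^ (U + C + 8))) = 18 * w := by
      rw [hw]
      have : L ^ (U + C + 8) = L ^ (C + 3) * L ^ (U + 4) * L := by
        rw [← pow_add, ← pow_succ]; congr 1; omega
      rw [this]
      field_simp
      ring
    rw [← h2]
    gcongr
  -- the error of the replacement
  have r1 : √((2 * N : ℕ) : ℝ) ≤ X / L ^ (U + 6) := by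
    apply Real.sqrt_le_iff.2
    refine ⟨by positivity, ?_⟩
    rw [div_pow, ← pow_mul, le_div_iff₀ (hLp _)]
    push_cast
    have h1 : 2 * (N : ℝ) ≤ 4 * (X * L ^ (C + 3)) := by linarith
    have h2 : 4 * L ^ (C + 3) * L ^ ((U + 6) * 2) ≤ X := by
      refine le_trans ?_ hXL
      have e1 : L ^ (2 * U + C + 20) = L ^ (C + 3) * L ^ ((U + 6) * 2) * L ^ 5 := by
        rw [← pow_add, ← pow_add]; congr 1; omega
      rw [e1]
      have e2 : (4 : ℝ) ≤ L ^ 5 := by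
        calc (4 : ℝ) ≤ L := by linarith
          _ ≤ L ^ 5 := le_self_pow₀ hL1 (by norm_num)
      have e3 : 0 ≤ L ^ (C + 3) * L ^ ((U + 6) * 2) := by positivity
      calc 4 * L ^ (C + 3) * L ^ ((U + 6) * 2) = (L ^ (C + 3) * L ^ ((U + 6) * 2)) * 4 := by ring
        _ ≤ _ := mul_le_mul_of_nonneg_left e2 e3
    calc 2 * (N : ℝ) * L ^ ((U + 6) * 2) ≤ 4 * (X * L ^ (C + 3)) * L ^ ((U + 6) * 2) :=
          mul_le_mul_of_nonneg_right h1 (hLp _).le
      _ = X * (4 * L ^ (C + 3) * L ^ ((U + 6) * 2)) := by ring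
      _ ≤ X * X := mul_le_mul_of_nonneg_left h2 hX0.le
      _ = X ^ 2 := by ring
  have hTD : X / L ^ (U + 6) ≤ 2 * X / L ^ (U + 6) - Dm := by
    have h2 := hkey (C + D + 2) (U + 6) (by omega)
    rw [← hDm] at h2
    have h3 : 2 * X / L ^ (U + 6) = X / L ^ (U + 6) + X / L ^ (U + 6) := by ring
    linarith
  have hTD0 : 0 < 2 * X / L ^ (U + 6) - Dm := by
    have : 0 < X / L ^ (U + 6) := by positivity
    linarith
  have r2 : L ^ 2 * ((N : ℝ) * (Dm / (2 * X / L ^ (U + 6) - Dm))) ≤ 2 * w := by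
    have h1 : Dm / (2 * X / L ^ (U + 6) - Dm) ≤ Dm / (X / L ^ (U + 6)) := by
      apply div_le_div_of_nonneg_left hDm0 (by positivity) hTD
    have h2 : L ^ 2 * (2 * (X * L ^ (C + 3)) * (Dm / (X / L ^ (U + 6)))) =
        2 * (X * L ^ (2 * C + D + U + 13) / L ^ q) := by
      have : L ^ (2 * C + D + U + 13) = L ^ 2 * L ^ (C + 3) * L ^ (C + D + 2) * L ^ (U + 6) := by
        rw [← pow_add, ← pow_add, ← pow_add]; congr 1; omega
      rw [this, hDm]
      field_simp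
    have h3 := hkey (2 * C + D + U + 13) (U + 4) (by omega)
    rw [← hw] at h3
    calc L ^ 2 * ((N : ℝ) * (Dm / (2 * X / L ^ (U + 6) - Dm))) ≤
        L ^ 2 * (2 * (X * L ^ (C + 3)) * (Dm / (X / L ^ (U + 6)))) := by
          apply mul_le_mul_of_nonneg_left _ (hLp _).le
          exact mul_le_mul hN h1 (by positivity) (by positivity)
      _ = _ := h2
      _ ≤ _ := by linarith
  have hlog20 : 0 ≤ Real.log ((2 * N : ℕ) : ℝ) := Real.log_natCast_nonneg _
  have t3 : 6 * L * RR N Dm (2 * X / L ^ (U + 6)) L ≤ 200 * w := by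
    have hE0 : 0 ≤ (N : ℝ) * (Dm / (2 * X / L ^ (U + 6) - Dm)) := by positivity
    obtain ⟨E0, hE⟩ : ∃ E0, E0 = (N : ℝ) * (Dm / (2 * X / L ^ (U + 6) - Dm)) := ⟨_, rfl⟩
    rw [← hE] at r2 hE0
    have h1 : RR N Dm (2 * X / L ^ (U + 6)) L ≤
        3 * (X / L ^ (U + 6)) * (2 * L) + 3 / 2 * L +
        (2 * L + L) * (3 / 2 * (2 * X / L ^ (U + 6)) + E0) := by
      unfold RR
      rw [← hE]
      gcongr
    refine (mul_le_mul_of_nonneg_left h1 (by positivity)).trans ?_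
    have q3 : L ^ 2 * (X / L ^ (U + 6)) = w := by
      rw [hw]
      have : L ^ (U + 6) = L ^ (U + 4) * L ^ 2 := by rw [← pow_add]
      rw [this]
      field_simp
    have e1 : 6 * L * (3 * (X / L ^ (U + 6)) * (2 * L) + 3 / 2 * L +
        (2 * L + L) * (3 / 2 * (2 * X / L ^ (U + 6)) + E0)) =
        90 * (L ^ 2 * (X / L ^ (U + 6))) + 9 * L ^ 2 + 18 * (L ^ 2 * E0) := by ring
    rw [e1, q3]
    have q2 : L ^ 2 ≤ w := by
      rw [hw, le_div_iff₀ (hLp _), ← pow_add]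
      exact (pow_le_pow_right₀ hL1 (by omega)).trans hXL
    linarith
  rw [t1, ← hDm]
  linarith

end Run7.h376.G
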