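import Pool.Agent.Run7.h18.MK.Poly1
import Pool.Agent.Run7.h794.MK.Stm2

/-!
# Project GEN, piece CG: the law for the values of a polynomial
-/

set_option autoImplicit false

namespace Run7.h376.G

open Finset Filter Polynomial
open Pool.Agent.H807R2.Dav (ee norm_ee ee_add ee_int ee_add_int ee_zero)
open Pool.Agent.H373R2.T7 (lamz lamI lamzI)
open Pool.Agent.Run7.h794.MK
open Pool.Agent.Run7.h18.MK (iw_unif GamA GamA_card farA ev)

theorem law_poly (hlaw : S_LAW') (d T U : ℕ) : ∃ C B : ℕ, ∀ E : ℕ, ∃ N₀ : ℕ, ∀ N : ℕ, N₀ ≤ N → ∀ z : ℕ,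
    Real.log N ^ B ≤ z → (z : ℝ) ≤ Real.log N ^ E → ∀ f : ℤ[X], 1 ≤ f.natDegree → f.natDegree ≤ d →
    |((f.leadingCoeff : ℤ) : ℝ)| ≤ Real.log N ^ T → ∀ x : ℕ,
    (N : ℝ) ^ (1 / 3 : ℝ) * Real.log N ^ C ≤ (x : ℝ) ^ f.natDegree → (x : ℝ) ^ f.natDegree ≤ N →
    (∀ m ∈ Icc 1 x, |((f.eval (m : ℤ) : ℤ) : ℝ)| ≤ N) →
    ∀ Kc : ℝ, 0 < Kc → ∀ G : ℕ → ℝ, (∀ n ∈ Icc 1 N, |G n| ≤ Kc) →
    ∑ m ∈ Icc 1 x, (1 / (x : ℝ)) *
      |∑ n ∈ Icc 1 N, G n * (lamI ((n : ℤ) + f.eval (m : ℤ)) - lamzI z ((n : ℤ) + f.eval (m : ℤ)))| ≤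
      Kc * (N / Real.log N ^ U) := by
  obtain ⟨c, m, hc, hI⟩ := iw_unif d
  obtain ⟨V, hlaw⟩ := hlaw 1 U
  obtain ⟨C1, B1, hlaw⟩ := hlaw (2 * (V * m + T + 1)) (V * m + 2)
  refine ⟨C1, B1, fun E => ?_⟩
  obtain ⟨N₁, hlaw⟩ := hlaw E
  obtain ⟨N₃, hev⟩ := ev 1 (c + 20)
  refine ⟨N₁ + N₃ + 6, fun N hN z hz1 hz2 f hf1 hf2 hlc x hx1 hx2 hv Kc hKc G hG => ?_⟩
  obtain ⟨hLK, -⟩ := hev N (by omega)
  have hN0 : (0 : ℝ) < N := by exact_mod_cast (by omega : 0 < N)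
  obtain ⟨L, hL⟩ : ∃ L, L = Real.log (N : ℝ) := ⟨_, rfl⟩
  have hlaw := hlaw N (by omega) z hz1 hz2
  rw [← hL] at hlaw hlc hx1 hz1 hz2 hLK ⊢
  have hc1 : (1 : ℝ) ≤ c := by exact_mod_cast hc
  have hL20 : 20 ≤ L := by linarith
  have hL1 : 1 ≤ L := by linarith
  have hL0 : 0 < L := by linarith
  have hLc : (c : ℝ) ≤ L := by linarith
  have hxe : (0 : ℝ) < (x : ℝ) ^ f.natDegree := lt_of_lt_of_le (by positivity) hx1
  have hx : 1 ≤ x := by
    rcases Nat.eq_zero_or_pos x with h | h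
    · rw [h, Nat.cast_zero, zero_pow (by omega)] at hxe
      exact absurd hxe (lt_irrefl _)
    · exact h
  have hx0 : (0 : ℝ) < x := by exact_mod_cast hx
  -- the law
  obtain ⟨M, hM⟩ : ∃ M : ℕ, M = 6 * N := ⟨_, rfl⟩
  have hM1 : 1 ≤ M := by omega
  have hM0 : (0 : ℝ) < M := by exact_mod_cast hM1
  have hMr : (M : ℝ) = 6 * N := by rw [hM]; push_cast; ring
  obtain ⟨K, hK⟩ : ∃ K : ℕ, K = ⌊L ^ (V * m + T + 1)⌋₊ := ⟨_, rfl⟩
  have hKr : (K : ℝ) ≤ L ^ (V * m + T + 1) := by rw [hK]; exact Nat.floor_le (by positivity)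
  have hΓc : ((GamA K M).card : ℝ) ≤ L ^ (2 * (V * m + T + 1)) := by
    have h5 : ((GamA K M).card : ℝ) ≤ K * K := by exact_mod_cast GamA_card K M
    refine h5.trans ?_
    rw [two_mul, pow_add]
    exact mul_le_mul hKr hKr (Nat.cast_nonneg _) (by positivity)
  exact hlaw M (by omega) (by rw [hM, sq]; exact Nat.mul_le_mul_right _ (by omega)) ℕ (Icc 1 x)
    (fun _ => 1 / (x : ℝ)) (fun ω => f.eval (ω : ℤ)) (fun _ _ => by positivity)
    (by
      rw [sum_const, Nat.card_Icc, nsmul_eq_mul, Nat.add_sub_cancel]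
      rw [mul_one_div_cancel hx0.ne'])
    (fun ω hω => by
      have h1 := hv ω hω
      have h2 : ((|f.eval (ω : ℤ)| : ℤ) : ℝ) ≤ ((((1 : ℕ) : ℤ) * N : ℤ) : ℝ) := by
        rw [Int.cast_abs]
        push_cast
        rw [one_mul]
        exact h1
      exact_mod_cast h2) (x ^ f.natDegree) (by
      push_cast
      exact hx1)
    (GamA K M) hΓc
    (by
      intro t ht
      by_contra hcon
      push Not at hcon
      push_cast at ht
      obtain ⟨S, hS⟩ : ∃ S : ℂ, S = ∑ n ∈ Icc 1 x, ee (((f.eval (n : ℤ) : ℤ) : ℝ) * ((t : ℝ) / M)) := ⟨_, rfl⟩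
      have e1 : ∑ ω ∈ Icc 1 x, (((1 / (x : ℝ)) : ℝ) : ℂ) * ee (((f.eval (ω : ℤ) : ℤ) : ℝ) * ((t : ℝ) / M)) =
          (((1 / (x : ℝ)) : ℝ) : ℂ) * S := by
        rw [← mul_sum, hS]
      have e3 : 1 / L ^ V < ‖S‖ / x := by
        refine hcon.trans_le ?_
        rw [e1, norm_mul, Complex.norm_real, Real.norm_of_nonneg (by positivity)]
        exact le_of_eq (by ring)
      have hSx : (x : ℝ) ≤ L ^ V * ‖S‖ := by
        rw [div_lt_div_iff₀ (by positivity) hx0] at e3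
        linarith
      rw [hS] at hSx
      obtain ⟨k, hk1, hk2, a, ha⟩ := hI f.natDegree hf1 hf2 x (L ^ V) _ f hx (one_le_pow₀ hL1) rfl hSx
      have h3 : (c : ℝ) * (L ^ V) ^ m ≤ L ^ (V * m + 1) := by
        rw [← pow_mul, pow_succ, mul_comm]
        exact mul_le_mul_of_nonneg_left hLc (by positivity)
      have h4 : (k : ℝ) ≤ L ^ (V * m + T + 1) := by
        have h5 : ((f.coeff f.natDegree).natAbs : ℝ) ≤ L ^ T := by
          have h6 := hlc
          rw [leadingCoeff] at h6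
          rwa [← Int.cast_abs, Int.abs_eq_natAbs, Int.cast_natCast] at h6
        refine hk2.trans ?_
        calc (c : ℝ) * (L ^ V) ^ m * (f.coeff f.natDegree).natAbs ≤ L ^ (V * m + 1) * L ^ T :=
              mul_le_mul h3 h5 (Nat.cast_nonneg _) (by positivity)
          _ = _ := by rw [← pow_add]; congr 1; ring
      have h6 := farA K M hM1 (L ^ (V * m + 2) * (M / (x : ℝ) ^ f.natDegree)) t (by
        intro γ hγ k'
        have := ht γ hγ k'
        push_cast at this ⊢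
        exact this) k hk1 (by rw [hK]; exact Nat.le_floor h4) a
      have h7 : |(t : ℝ) / M - a / k| ≤ L ^ (V * m + 1) / (x : ℝ) ^ f.natDegree := by
        refine ha.trans ?_
        exact div_le_div_of_nonneg_right h3 hxe.le
      have h8 : L ^ (V * m + 1) / (x : ℝ) ^ f.natDegree ≤ (L ^ (V * m + 2) * (M / (x : ℝ) ^ f.natDegree) - 1 / 2) / M := by
        rw [le_div_iff₀ hM0]
        have g1 : 1 ≤ (M : ℝ) / (x : ℝ) ^ f.natDegree := by
          rw [le_div_iff₀ hxe]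
          linarith
        have g2 : L ^ (V * m + 1) / (x : ℝ) ^ f.natDegree * M = L ^ (V * m + 1) * (M / (x : ℝ) ^ f.natDegree) := by ring
        rw [g2, pow_succ L (V * m + 1)]
        have g3 : (1 : ℝ) ≤ L ^ (V * m + 1) := one_le_pow₀ hL1
        have g4 : 1 ≤ L ^ (V * m + 1) * ((M : ℝ) / (x : ℝ) ^ f.natDegree) := by nlinarith
        have g5 : L ^ (V * m + 1) * L * ((M : ℝ) / (x : ℝ) ^ f.natDegree) =
            L * (L ^ (V * m + 1) * ((M : ℝ) / (x : ℝ) ^ f.natDegree)) := by ring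
        rw [g5]
        nlinarith
      linarith)
    Kc hKc G hG

end Run7.h376.G
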