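import Mathlib

/-!
# Project GEN, piece CG: polynomials
-/

set_option autoImplicit false

namespace Run7.h376.G

open Finset Polynomial

/-- the difference of two shifts of a polynomial -/
noncomputable def dp (g : ℤ[X]) (a b : ℤ) : ℤ[X] := taylor b g - taylor a g

theorem dp_eval (g : ℤ[X]) (a b x : ℤ) : (dp g a b).eval x = g.eval (x + b) - g.eval (x + a) := by
  unfold dp
  rw [eval_sub, taylor_eval, taylor_eval]

theorem dp_coeff (g : ℤ[X]) (a b : ℤ) (hd : 1 ≤ g.natDegree) :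
    (dp g a b).coeff (g.natDegree - 1) = g.natDegree * g.leadingCoeff * (b - a) := by
  have hdeg : (hasseDeriv (g.natDegree - 1) g).natDegree < 2 := by
    have := natDegree_hasseDeriv_le g (g.natDegree - 1)
    omega
  have hev : ∀ r : ℤ, (hasseDeriv (g.natDegree - 1) g).eval r =
      (hasseDeriv (g.natDegree - 1) g).coeff 0 + (g.natDegree * g.leadingCoeff) * r := by
    intro r
    rw [eval_eq_sum_range' hdeg, sum_range_succ, sum_range_one, pow_zero, mul_one, pow_one]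
    congr 2
    rw [hasseDeriv_coeff]
    have e1 : 1 + (g.natDegree - 1) = g.natDegree := by omega
    rw [e1, leadingCoeff]
    congr 2
    rw [Nat.choose_symm_of_eq_add (show g.natDegree = (g.natDegree - 1) + 1 by omega), Nat.choose_one_right]
  unfold dp
  rw [coeff_sub, taylor_coeff, taylor_coeff, hev, hev]
  ring

theorem dp_natDegree (g : ℤ[X]) (a b : ℤ) (hd : 1 ≤ g.natDegree) (hab : a ≠ b) :
    (dp g a b).natDegree = g.natDegree - 1 := by
  apply le_antisymm
  · rw [natDegree_le_iff_coeff_eq_zero]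
    intro n hn
    unfold dp
    rw [coeff_sub, taylor_coeff, taylor_coeff]
    rcases Nat.lt_or_ge g.natDegree n with h | h
    · rw [hasseDeriv_eq_zero_of_lt_natDegree g n h]
      simp
    · have : n = g.natDegree := by omega
      rw [this, hasseDeriv_natDegree_eq_C]
      simp
  · apply le_natDegree_of_ne_zero
    rw [dp_coeff g a b hd]
    have hg : g.leadingCoeff ≠ 0 := by
      intro h0
      rw [leadingCoeff_eq_zero] at h0
      rw [h0, natDegree_zero] at hd
      omega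
    have hdn : (g.natDegree : ℤ) ≠ 0 := by exact_mod_cast (by omega : g.natDegree ≠ 0)
    exact mul_ne_zero (mul_ne_zero hdn hg) (sub_ne_zero.2 hab.symm)

theorem pow_sub_le {x y R : ℝ} (hx : |x| ≤ R) (hy : |y| ≤ R) (k : ℕ) :
    |y ^ k - x ^ k| ≤ k * |y - x| * R ^ (k - 1) := by
  have hR : 0 ≤ R := (abs_nonneg _).trans hx
  induction k with
  | zero => simp
  | succ k ih =>
    have e : y ^ (k + 1) - x ^ (k + 1) = y ^ k * (y - x) + x * (y ^ k - x ^ k) := by ring
    rw [e]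
    refine (abs_add_le _ _).trans ?_
    rw [abs_mul, abs_mul, abs_pow, Nat.add_sub_cancel]
    have h1 : |y| ^ k ≤ R ^ k := pow_le_pow_left₀ (abs_nonneg _) hy k
    have h2 : |x| * |y ^ k - x ^ k| ≤ k * |y - x| * R ^ k := by
      calc |x| * |y ^ k - x ^ k| ≤ R * (k * |y - x| * R ^ (k - 1)) :=
            mul_le_mul hx ih (abs_nonneg _) hR
        _ = k * |y - x| * R ^ k := by
          rcases Nat.eq_zero_or_pos k with h | h
          · rw [h]; simp
          · have e2 : R ^ k = R * R ^ (k - 1) := by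
              rw [← pow_succ']
              congr 1
              omega
            rw [e2]
            ring
    have h3 := mul_le_mul_of_nonneg_right h1 (abs_nonneg (y - x))
    push_cast
    linarith

/-- the constant of the polynomial -/
noncomputable def kg (g : ℤ[X]) : ℝ :=
  (∑ i ∈ range (g.natDegree + 1), |((g.coeff i : ℤ) : ℝ)|) * (g.natDegree + 1) + 1

theorem sum_nonneg' (g : ℤ[X]) : 0 ≤ ∑ i ∈ range (g.natDegree + 1), |((g.coeff i : ℤ) : ℝ)| :=
  sum_nonneg fun _ _ => abs_nonneg _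

theorem kg_one (g : ℤ[X]) : 1 ≤ kg g := by
  unfold kg
  have := sum_nonneg' g
  have h : (0 : ℝ) ≤ (∑ i ∈ range (g.natDegree + 1), |((g.coeff i : ℤ) : ℝ)|) * (g.natDegree + 1) := by positivity
  linarith

theorem kg_lead (g : ℤ[X]) : g.natDegree * |((g.leadingCoeff : ℤ) : ℝ)| ≤ kg g := by
  unfold kg
  have h1 : |((g.leadingCoeff : ℤ) : ℝ)| ≤ ∑ i ∈ range (g.natDegree + 1), |((g.coeff i : ℤ) : ℝ)| :=
    single_le_sum (f := fun i => |((g.coeff i : ℤ) : ℝ)|) (fun _ _ => abs_nonneg _)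
      (mem_range.2 (Nat.lt_succ_self g.natDegree))
  have h2 : (0 : ℝ) ≤ g.natDegree := Nat.cast_nonneg _
  have h3 := abs_nonneg ((g.leadingCoeff : ℤ) : ℝ)
  nlinarith [mul_le_mul_of_nonneg_left h1 h2]

theorem eval_cast (g : ℤ[X]) (x : ℤ) : ((g.eval x : ℤ) : ℝ) =
    ∑ i ∈ range (g.natDegree + 1), ((g.coeff i : ℤ) : ℝ) * (x : ℝ) ^ i := by
  rw [eval_eq_sum_range]
  push_cast
  rfl

theorem eval_le (g : ℤ[X]) {x : ℤ} {R : ℝ} (hR : 1 ≤ R) (hx : |(x : ℝ)| ≤ R) :
    |((g.eval x : ℤ) : ℝ)| ≤ kg g * R ^ g.natDegree := by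
  rw [eval_cast]
  have h1 : |∑ i ∈ range (g.natDegree + 1), ((g.coeff i : ℤ) : ℝ) * (x : ℝ) ^ i| ≤
      (∑ i ∈ range (g.natDegree + 1), |((g.coeff i : ℤ) : ℝ)|) * R ^ g.natDegree := by
    refine (abs_sum_le_sum_abs _ _).trans ?_
    rw [sum_mul]
    refine sum_le_sum fun i hi => ?_
    rw [mem_range] at hi
    rw [abs_mul, abs_pow]
    refine mul_le_mul_of_nonneg_left ?_ (abs_nonneg _)
    exact (pow_le_pow_left₀ (abs_nonneg _) hx i).trans (pow_le_pow_right₀ hR (by omega))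
  refine h1.trans (mul_le_mul_of_nonneg_right ?_ (by positivity))
  unfold kg
  have h2 := sum_nonneg' g
  have h3 : (0 : ℝ) ≤ g.natDegree := Nat.cast_nonneg _
  nlinarith [mul_nonneg h2 h3]

theorem eval_sub_le (g : ℤ[X]) {x y : ℤ} {R : ℝ} (hR : 1 ≤ R) (hx : |(x : ℝ)| ≤ R) (hy : |(y : ℝ)| ≤ R) :
    |((g.eval y - g.eval x : ℤ) : ℝ)| ≤ kg g * |(y : ℝ) - x| * R ^ (g.natDegree - 1) := by
  rw [Int.cast_sub, eval_cast, eval_cast, ← sum_sub_distrib]
  have h1 : |∑ i ∈ range (g.natDegree + 1), (((g.coeff i : ℤ) : ℝ) * (y : ℝ) ^ i - ((g.coeff i : ℤ) : ℝ) * (x : ℝ) ^ i)| ≤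
      (∑ i ∈ range (g.natDegree + 1), |((g.coeff i : ℤ) : ℝ)|) * (g.natDegree * |(y : ℝ) - x| * R ^ (g.natDegree - 1)) := by
    refine (abs_sum_le_sum_abs _ _).trans ?_
    rw [sum_mul]
    refine sum_le_sum fun i hi => ?_
    rw [mem_range] at hi
    rw [← mul_sub, abs_mul]
    refine mul_le_mul_of_nonneg_left ?_ (abs_nonneg _)
    refine (pow_sub_le hx hy i).trans ?_
    have h2 : (i : ℝ) ≤ g.natDegree := by exact_mod_cast (by omega : i ≤ g.natDegree)
    have h3 : R ^ (i - 1) ≤ R ^ (g.natDegree - 1) := pow_le_pow_right₀ hR (by omega)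
    have h4 : (0 : ℝ) ≤ R ^ (i - 1) := by positivity
    gcongr
  refine h1.trans ?_
  have h2 := sum_nonneg' g
  have h3 : (0 : ℝ) ≤ |(y : ℝ) - x| * R ^ (g.natDegree - 1) := by positivity
  have h4 : (∑ i ∈ range (g.natDegree + 1), |((g.coeff i : ℤ) : ℝ)|) * g.natDegree ≤ kg g := by
    unfold kg
    nlinarith
  calc (∑ i ∈ range (g.natDegree + 1), |((g.coeff i : ℤ) : ℝ)|) * (g.natDegree * |(y : ℝ) - x| * R ^ (g.natDegree - 1)) =
      ((∑ i ∈ range (g.natDegree + 1), |((g.coeff i : ℤ) : ℝ)|) * g.natDegree) * (|(y : ℝ) - x| * R ^ (g.natDegree - 1)) := by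
        ring
    _ ≤ kg g * (|(y : ℝ) - x| * R ^ (g.natDegree - 1)) := mul_le_mul_of_nonneg_right h4 h3
    _ = _ := by ring

end Run7.h376.G
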